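import Pool.Agent.W207.SW.SpecS

/-!
# Project SW (helper207): the triangle
-/

set_option autoImplicit false

open Complex Filter Topology Set MeasureTheory
open scoped BigOperators

namespace Pool.Agent.W303.SW

open W207.PR (Tst ct dt)
open W207.SW

/-- the tent -/
noncomputable def tn (lam a : ℝ) : ℝ := max (1 - |a| / lam) 0

lemma int_sym (g : ℝ → ℝ) (hg : Continuous g) (μ : ℝ) :
    ∫ α in (-μ)..μ, g α = ∫ α in (0 : ℝ)..μ, (g α + g (-α)) := by
  rw [← intervalIntegral.integral_add_adjacent_intervals (b := 0) (hg.intervalIntegrable _ _)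
    (hg.intervalIntegrable _ _)]
  have h5 : ∫ α in (-μ)..0, g α = ∫ α in (0 : ℝ)..μ, g (-α) := by
    have := intervalIntegral.integral_comp_neg (a := (0 : ℝ)) (b := μ) g
    rw [neg_zero] at this
    exact this.symm
  have hg2 : Continuous fun α : ℝ => g (-α) := hg.comp continuous_neg
  rw [h5, intervalIntegral.integral_add (hg.intervalIntegrable _ _)
    (hg2.intervalIntegrable _ _)]
  ring

/-- the Fejér kernel -/
lemma fejer {x : ℝ} (hx : x ≠ 0) :
    ∫ β in (-1 : ℝ)..1, (1 - |β|) * Real.cos (2 * Real.pi * x * β) =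
      (Real.sin (Real.pi * x) / (Real.pi * x)) ^ 2 := by
  have hpi := Real.pi_pos
  rw [int_sym (fun β => (1 - |β|) * Real.cos (2 * Real.pi * x * β)) (by fun_prop) 1]
  have hk : 2 * Real.pi * x ≠ 0 := by positivity
  have h1 : ∀ β ∈ Set.uIcc (0 : ℝ) 1, (1 - |β|) * Real.cos (2 * Real.pi * x * β) +
      (1 - |-β|) * Real.cos (2 * Real.pi * x * -β) =
      2 * ((1 - β) * Real.cos (2 * Real.pi * x * β)) := by
    intro β hβ
    rw [Set.uIcc_of_le zero_le_one] at hβ
    rw [abs_neg, abs_of_nonneg hβ.1, mul_neg, Real.cos_neg]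
    ring
  rw [intervalIntegral.integral_congr h1]
  set k := 2 * Real.pi * x with hkdef
  have h2 : ∀ β ∈ Set.uIcc (0 : ℝ) 1, HasDerivAt (fun β : ℝ => 2 * ((1 - β) * Real.sin (k * β) / k -
      Real.cos (k * β) / k ^ 2)) (2 * ((1 - β) * Real.cos (k * β))) β := by
    intro β _
    have h3 : HasDerivAt (fun β : ℝ => k * β) k β := by
      simpa using (hasDerivAt_id β).const_mul k
    have h4 := h3.sin
    have h5 := h3.cos
    have h6 : HasDerivAt (fun β : ℝ => 1 - β) (-1) β := by
      simpa using (hasDerivAt_id β).const_sub 1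
    have h7 := (((h6.mul h4).div_const k).sub (h5.div_const (k ^ 2))).const_mul 2
    refine h7.congr_deriv ?_
    field_simp
    ring
  rw [intervalIntegral.integral_eq_sub_of_hasDerivAt h2
    ((by fun_prop : Continuous fun β : ℝ => 2 * ((1 - β) * Real.cos (k * β))).intervalIntegrable _ _)]
  have h8 : Real.cos (k * 1) = 1 - 2 * Real.sin (Real.pi * x) ^ 2 := by
    have : k * 1 = 2 * (Real.pi * x) := by rw [hkdef]; ring
    rw [this, Real.cos_two_mul, Real.cos_sq']
    ring
  rw [h8]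
  simp only [mul_zero, Real.sin_zero, Real.cos_zero, sub_self, zero_mul, zero_div, sub_zero, mul_one]
  rw [hkdef]
  field_simp
  try ring

theorem tn_cont (lam : ℝ) : Continuous (tn lam) := by
  unfold tn
  fun_prop

theorem tn_zero {lam : ℝ} (hl : 0 < lam) (x : ℝ) (h : lam ≤ |x|) : tn lam x = 0 := by
  unfold tn
  apply max_eq_right
  have : 1 ≤ |x| / lam := by rwa [le_div_iff₀ hl, one_mul]
  linarith

theorem ct_eq {lam : ℝ} (hl : 0 < lam) (x : ℝ) :
    ct (tn lam) x = ∫ α in (-lam)..lam, tn lam α * Real.cos (2 * Real.pi * α * x) := by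
  unfold ct
  symm
  apply intervalIntegral.integral_eq_integral_of_support_subset
  intro α hα
  by_contra h
  apply hα
  have : lam ≤ |α| := by
    by_contra h2
    push Not at h2
    obtain ⟨h3, h4⟩ := abs_lt.1 h2
    exact h ⟨by linarith, by linarith⟩
  show tn lam α * _ = 0
  rw [tn_zero hl α this, zero_mul]

theorem ct_scale {lam : ℝ} (hl : 0 < lam) (x : ℝ) :
    ct (tn lam) x = lam * ∫ β in (-1 : ℝ)..1, (1 - |β|) * Real.cos (2 * Real.pi * (lam * x) * β) := by
  rw [ct_eq hl]
  have h1 := intervalIntegral.integral_comp_mul_left (a := (-1 : ℝ)) (b := 1)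
    (fun α => tn lam α * Real.cos (2 * Real.pi * α * x)) hl.ne'
  have h2 : lam * (-1 : ℝ) = -lam := by ring
  rw [h2, mul_one, smul_eq_mul] at h1
  have h3 : ∫ α in (-lam)..lam, tn lam α * Real.cos (2 * Real.pi * α * x) =
      lam * ∫ β in (-1 : ℝ)..1, tn lam (lam * β) * Real.cos (2 * Real.pi * (lam * β) * x) := by
    rw [h1, ← mul_assoc, mul_inv_cancel₀ hl.ne', one_mul]
  rw [h3]
  congr 1
  apply intervalIntegral.integral_congr
  intro β hβ
  rw [uIcc_of_le (by norm_num)] at hβ
  have h4 : |β| ≤ 1 := abs_le.2 ⟨hβ.1, hβ.2⟩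
  have h5 : tn lam (lam * β) = 1 - |β| := by
    unfold tn
    rw [abs_mul, abs_of_pos hl, mul_div_cancel_left₀ _ hl.ne']
    apply max_eq_left
    linarith
  simp only
  rw [h5]
  congr 2
  ring

theorem ct_val {lam : ℝ} (hl : 0 < lam) (x : ℝ) (hx : x ≠ 0) :
    ct (tn lam) x = lam * (Real.sin (Real.pi * (lam * x)) / (Real.pi * (lam * x))) ^ 2 := by
  rw [ct_scale hl, fejer (mul_ne_zero hl.ne' hx)]

theorem ct_val0 {lam : ℝ} (hl : 0 < lam) : ct (tn lam) 0 = lam := by
  rw [ct_scale hl]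
  have h1 : ∫ β in (-1 : ℝ)..1, (1 - |β|) * Real.cos (2 * Real.pi * (lam * 0) * β) =
      ∫ β in (-1 : ℝ)..1, (1 - |β|) := by
    apply intervalIntegral.integral_congr
    intro β _
    simp
  have h2 : ∫ β in (-1 : ℝ)..1, (1 - |β|) = 1 := by
    rw [int_sym (fun β => 1 - |β|) (by fun_prop) 1]
    have h3 : ∫ β in (0 : ℝ)..1, ((1 - |β|) + (1 - |-β|)) = ∫ β in (0 : ℝ)..1, (2 - 2 * β) := by
      apply intervalIntegral.integral_congr
      intro β hβ
      rw [uIcc_of_le (by norm_num)] at hβ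
      simp only
      rw [abs_neg, abs_of_nonneg hβ.1]
      ring
    rw [h3, intervalIntegral.integral_sub (by simp) (by
      apply Continuous.intervalIntegrable
      fun_prop), intervalIntegral.integral_const_mul, integral_id]
    norm_num
  rw [h1, h2, mul_one]

theorem main : S_BLT := by
  intro θ hθ
  refine ⟨fun a => θ⁻¹ * tn θ a, continuous_const.mul (tn_cont θ), ?_, ?_, ?_⟩
  · intro x
    simp only [tn, abs_neg]
  · intro x hx
    simp only [tn_zero hθ x hx, mul_zero]
  · intro u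
    have h1 : ct (fun a => θ⁻¹ * tn θ a) u = θ⁻¹ * ct (tn θ) u := by
      unfold ct
      rw [← integral_const_mul]
      refine integral_congr_ae (Filter.Eventually.of_forall fun α => ?_)
      show θ⁻¹ * tn θ α * _ = θ⁻¹ * (tn θ α * _)
      ring
    rw [h1]
    by_cases hu : u = 0
    · subst hu
      show Real.sinc (Real.pi * θ * 0) ^ 2 = _
      rw [ct_val0 hθ, mul_zero, Real.sinc_zero, inv_mul_cancel₀ hθ.ne', one_pow]
    · rw [ct_val hθ u hu, ← mul_assoc, inv_mul_cancel₀ hθ.ne', one_mul]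
      have hne : Real.pi * θ * u ≠ 0 := mul_ne_zero (mul_ne_zero Real.pi_ne_zero hθ.ne') hu
      show Real.sinc (Real.pi * θ * u) ^ 2 = _
      rw [Real.sinc_of_ne_zero hne, mul_assoc]

end Pool.Agent.W303.SW
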